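import Pool.Agent.E8helper88.FP.Red
import Pool.Agent.E8helper71.CP.Lat
import Pool.Agent.Y706.SB.Fin
import Pool.Agent.Y93.SB.Sep
import Pool.Agent.Y93.SB.Cmp
import Pool.Agent.E8helper88.Mul.McM5
import Pool.Agent.Y706.CH.Gon

/-!
# From the main inequality to all fields of constants
-/

namespace Pool.Agent.E8helper88.FP

open Pool.Agent.TH951.W.UB Pool.Agent.TH951.W.UG Pool.Agent.TH951.W.UH Finset Polynomial
open Pool.Agent.TH951.P
open Pool.Agent.E8helper71.CP.Few (NLat)
open Pool.Agent.E8helper88.Mul (LatP LatF IsoP CjF)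

universe u v

/-- the bound for stable sets over an algebraically closed field of constants -/
def S_CL : Prop := ∀ d : ℕ, 2 ≤ d → ∃ P0 : ℕ, ∀ n : ℕ, ∃ B : ℕ, ∀ (p : ℕ) [Fact p.Prime]
    (hp : P0 < p) (k L Om : Type u) [Field k] [IsAlgClosed k]
    [CharP k p] [Field L] [CharP L p] [Algebra k L] [Algebra (RatFunc k) L]
    [IsScalarTower k (RatFunc k) L] [FiniteDimensional (RatFunc k) L]
    [Algebra.IsSeparable (RatFunc k) L] [Field Om] [IsAlgClosed Om] [Algebra L Om],
    Module.finrank (RatFunc k) L ≤ n → ∀ P R : L[X], P.natDegree ≤ d → R.natDegree = d →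
    IsCoprime P R → NLat Om d P R → ¬ ConjConst k P R d → ∀ S : Finset L,
    (∀ z ∈ S, R.eval z ≠ 0 ∧ P.eval z / R.eval z ∈ S) → S.card ≤ B

lemma isoP_map {k : Type*} {K L : Type*} [Field k] [Field K] [Algebra k K] [Field L] [Algebra k L]
    (j : K →ₐ[k] L) (p q : K[X]) (d : ℕ) (h : IsoP k p q d) :
    IsoP k (p.map (j : K →+* L)) (q.map (j : K →+* L)) d := by
  obtain ⟨a, b, c, e, hdet, u, w, hne, hu, hw, hua, hwa, hid⟩ := h
  set φ : K →+* L := (j : K →+* L) with hφ
  refine ⟨φ a, φ b, φ c, φ e, ?_, u.map φ, w.map φ, ?_, natDegree_map_le.trans hu,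
    natDegree_map_le.trans hw, fun n => ?_, fun n => ?_, ?_⟩
  · rw [← map_mul, ← map_mul, ← map_sub]
    exact (_root_.map_ne_zero φ).mpr hdet
  · rcases hne with h | h
    · exact Or.inl ((Polynomial.map_ne_zero_iff φ.injective).mpr h)
    · exact Or.inr ((Polynomial.map_ne_zero_iff φ.injective).mpr h)
  · rw [coeff_map]
    exact (hua n).algHom j
  · rw [coeff_map]
    exact (hwa n).algHom j
  · have h1 := congrArg (fun g => g.map φ) hid
    simp only [Polynomial.map_mul, Polynomial.map_add, map_C, map_X, Polynomial.map_sum,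
      Polynomial.map_pow] at h1
    simp only [coeff_map]
    exact h1

lemma latP_map {K L : Type*} [Field K] [Field L] (φ : K →+* L) (p q : K[X]) (d : ℕ)
    (h : LatP d p q) : LatP d (p.map φ) (q.map φ) := by
  obtain ⟨e, A, B, hA, hB, hAd, hBd, hid⟩ := h
  refine ⟨e, A.map φ, B.map φ, (Polynomial.map_ne_zero_iff φ.injective).mpr hA,
    (Polynomial.map_ne_zero_iff φ.injective).mpr hB, natDegree_map_le.trans hAd,
    natDegree_map_le.trans hBd, ?_⟩
  have h1 := congrArg (fun g => g.map φ) hid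
  simp only [Polynomial.map_mul, Polynomial.map_pow, map_C] at h1
  have e1 : ∀ A : K[X], (Pool.Agent.W277.UH.hc e A p q).map φ =
      Pool.Agent.W277.UH.hc e (A.map φ) (p.map φ) (q.map φ) := fun A =>
    (Pool.Agent.TH951.P.hc_map φ e A p q).symm
  have e2 : (Pool.Agent.E8helper88.Mul.wr p q).map φ =
      Pool.Agent.E8helper88.Mul.wr (p.map φ) (q.map φ) := by
    unfold Pool.Agent.E8helper88.Mul.wr
    rw [Polynomial.map_sub, Polynomial.map_mul, Polynomial.map_mul, derivative_map,
      derivative_map]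
  rw [e1, e1, e2, map_natCast] at h1
  exact h1

/-- points over the field -/
theorem fin_p (hCL : S_CL.{u}) : ∃ (p₀ : ℕ → ℕ) (N : ℕ → ℕ → ℕ), ∀ (k : Type v)
    (L Om : Type u) [Field k] [Field L] [Algebra k L] [Field Om] [IsAlgClosed Om]
    [Algebra L Om] [Algebra k Om] [IsScalarTower k L Om] (ℓ : ℕ) [Fact ℓ.Prime] [CharP k ℓ]
    (t : L), Transcendental k t → FiniteDimensional (IntermediateField.adjoin k {t}) L →
    ∀ (n d : ℕ), Module.finrank (IntermediateField.adjoin k {t}) L ≤ n → 2 ≤ d → p₀ d < ℓ →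
    ∀ p q : L[X], IsCoprime p q → max p.natDegree q.natDegree = d →
    ¬ IsoP k (p.map (algebraMap L Om)) (q.map (algebraMap L Om)) d →
    ¬ LatP d (p.map (algebraMap L Om)) (q.map (algebraMap L Om)) →
    {z : Option L | (Set.range fun j : ℕ => (ratP1 p q d)^[j] z).Finite}.encard ≤
      ((N n d : ℕ) : ℕ∞) := by
  classical
  have hA : ∀ d : ℕ, ∃ P0 : ℕ, d ≤ P0 ∧ ∀ n : ℕ, ∃ N : ℕ, 2 ≤ d → ∀ (p : ℕ) [Fact p.Prime], P0 < p →
    ∀ (k L Om : Type u) [Field k] [IsAlgClosed k] [CharP k p] [Field L] [CharP L p]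
    [Algebra k L] [Algebra (RatFunc k) L] [IsScalarTower k (RatFunc k) L]
    [FiniteDimensional (RatFunc k) L] [Algebra.IsSeparable (RatFunc k) L] [Field Om]
    [IsAlgClosed Om] [Algebra L Om],
    Module.finrank (RatFunc k) L ≤ n → ∀ P R : L[X], P.natDegree ≤ d → R.natDegree = d →
    IsCoprime P R → NLat Om d P R → ¬ ConjConst k P R d →
    ∀ S : Finset L, (∀ z ∈ S, R.eval z ≠ 0 ∧ P.eval z / R.eval z ∈ S) → S.card ≤ N := by
    intro d
    by_cases hd : 2 ≤ d
    · obtain ⟨P0, hP0⟩ := hCL d hd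
      refine ⟨P0 + d, by omega, fun n => ?_⟩
      obtain ⟨B, hB⟩ := hP0 n
      exact ⟨B, fun _ p hpf hp k L Om _ _ _ _ _ _ _ _ _ _ _ _ _ hn P R hP hR hco hlat hiso S hS =>
        hB p (by omega) k L Om hn P R hP hR hco hlat hiso S hS⟩
    · exact ⟨d, le_rfl, fun n => ⟨0, fun h => absurd h hd⟩⟩
  choose p₀ hdp₀ hp₀ using hA
  choose N hN using hp₀
  refine ⟨p₀, fun n d => N d n, ?_⟩
  intro k L Om _ _ _ _ _ _ _ _ ℓ hℓ _ t ht hfin n d hn hd hdp p q hco hmax hiso hlat
  haveI : CharP (EE k L) ℓ := (RingHom.charP_iff (algebraMap k (EE k L))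
    (algebraMap k (EE k L)).injective ℓ).mp inferInstance
  haveI : CharP (LL k L) ℓ := (RingHom.charP_iff (algebraMap (EE k L) (LL k L))
    (algebraMap (EE k L) (LL k L)).injective ℓ).mp inferInstance
  haveI : IsAlgClosed (EE k L) := IsAlgClosure.isAlgClosed k
  haveI : Infinite (EE k L) := IsAlgClosed.instInfinite
  haveI : Infinite (LL k L) := Infinite.of_injective _ (algebraMap (EE k L) (LL k L)).injective
  apply prePer_of_stable
  intro P hP
  obtain ⟨ht1, hf1, hr1⟩ := Pool.Agent.Y93.SB.t_CMP.{u, v} k L (EE k L) (LL k L) (phi k L)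
    (phi_alg k L) (adjoin_phi k L) t ht hfin
  obtain ⟨s, hs, hsep, hfs, hrs⟩ := Pool.Agent.Y93.SB.t_SEP.{u} ℓ (EE k L) (LL k L)
    (phi k L t) ht1 hf1
  obtain ⟨inst, htow, hfin2, hsep2, hrank⟩ := Pool.Agent.Y706.SB.exists_ratAlgSep (EE k L)
    (LL k L) s hs hsep hfs
  have hn2 : Module.finrank (RatFunc (EE k L)) (LL k L) ≤ n := by
    rw [hrank]
    exact (hrs.trans hr1).trans hn
  set φ := phi k L with hφ
  have hco' : IsCoprime (p.map φ) (q.map φ) := (Polynomial.isCoprime_map φ).mpr hco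
  have hmax' : max (p.map φ).natDegree (q.map φ).natDegree = d := by
    rw [natDegree_map, natDegree_map, hmax]
  obtain ⟨f', g', P', h1, h2, h3, h4, h5, h6, h7⟩ := stable_red (k := EE k L) d hd (p.map φ)
    (q.map φ) hmax' hco' (P.image (Option.map φ)) (by
      intro z hz
      obtain ⟨y, hy, rfl⟩ := Finset.mem_image.mp hz
      rw [ratP1_map]
      exact Finset.mem_image_of_mem _ (hP y hy))
  -- the algebraically closed field
  let j : AlgebraicClosure L →ₐ[L] Om := IsAlgClosed.lift
  let j' : AlgebraicClosure L →ₐ[k] Om := j.restrictScalars k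
  have hjm : ∀ g : L[X], (g.map (algebraMap L (AlgebraicClosure L))).map
      (j : AlgebraicClosure L →+* Om) = g.map (algebraMap L Om) := by
    intro g
    rw [Polynomial.map_map]
    congr 1
    exact j.comp_algebraMap
  have hmm : ∀ g : L[X], (g.map φ).map (algebraMap (LL k L) (AlgebraicClosure L)) =
      g.map (algebraMap L (AlgebraicClosure L)) := by
    intro g
    rw [Polynomial.map_map]
    rfl
  have hisoB : ¬ ConjConst (EE k L) (p.map φ) (q.map φ) d := by
    intro h
    apply hiso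
    have h8 : IsoP k (p.map (algebraMap L (AlgebraicClosure L)))
        (q.map (algebraMap L (AlgebraicClosure L))) d := isoBar_of_conj k L p q d h
    have h9 := isoP_map j' _ _ d h8
    have e1 : ∀ g : L[X], (g.map (algebraMap L (AlgebraicClosure L))).map
      (j' : AlgebraicClosure L →+* Om) = g.map (algebraMap L Om) := hjm
    rw [e1, e1] at h9
    exact h9
  have hinf : Infinite (AlgebraicClosure L) := IsAlgClosed.instInfinite
  have hdL : (d : AlgebraicClosure L) ≠ 0 := by
    haveI : CharP (AlgebraicClosure L) ℓ := (RingHom.charP_iff (algebraMap (LL k L) (AlgebraicClosure L))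
      (algebraMap (LL k L) (AlgebraicClosure L)).injective ℓ).mp inferInstance
    intro h
    rw [CharP.cast_eq_zero_iff _ ℓ] at h
    have h9 := Nat.le_of_dvd (by omega) h
    have h10 := hdp₀ d
    omega
  have hlatB : NLat (AlgebraicClosure L) d f' g' := by
    intro h
    apply hlat
    have hcj := Pool.Agent.E8helper88.Mul.CjF_map (algebraMap (LL k L) (AlgebraicClosure L)) d
      _ _ _ _ hmax' (by rw [h2]; exact max_eq_right h1) h7
    have h8 := Pool.Agent.E8helper65.CM.latF_conj d hd hdL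
      ((p.map φ).map (algebraMap (LL k L) (AlgebraicClosure L)))
      ((q.map φ).map (algebraMap (LL k L) (AlgebraicClosure L)))
      (f'.map (algebraMap (LL k L) (AlgebraicClosure L)))
      (g'.map (algebraMap (LL k L) (AlgebraicClosure L))) (by
      simp only [natDegree_map]
      exact hmax) (by
      rw [natDegree_map, natDegree_map, h2]
      exact max_eq_right h1) hcj h
    rw [hmm, hmm] at h8
    have hpd : (p.map (algebraMap L (AlgebraicClosure L))).natDegree ≤ d := by
      rw [natDegree_map, ← hmax]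
      exact le_max_left _ _
    have hqd : (q.map (algebraMap L (AlgebraicClosure L))).natDegree ≤ d := by
      rw [natDegree_map, ← hmax]
      exact le_max_right _ _
    have h9 := Pool.Agent.E8helper88.Mul.latP_of_latF d (by omega) _ _ hpd hqd
      (Pool.Agent.E8helper88.Mul.wr_deg d (by omega) _ _ hpd hqd) h8
    have h10 := latP_map (j : AlgebraicClosure L →+* Om) _ _ d h9
    rw [hjm, hjm] at h10
    exact h10
  have h8 := hN d n hd ℓ hdp (EE k L) (LL k L) (AlgebraicClosure L) hn2 f' g' h1 h2 h3 hlatB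
    (fun h => hisoB (h6 h)) P' h4
  rw [h5, Finset.card_image_of_injective _ (Option.map_injective φ.injective)] at h8
  exact h8

/-- points of bounded gonality -/
theorem gon_p (hCL : S_CL.{u}) : ∃ (p₀ : ℕ → ℕ) (N : ℕ → ℕ → ℕ), ∀ (k : Type v)
    (K : Type u) [Field k] [Field K] [Algebra k K] (ℓ : ℕ) [Fact ℓ.Prime] [CharP k ℓ]
    (D d : ℕ), 2 ≤ d → p₀ d < ℓ →
    ∀ p q : K[X], IsCoprime p q → max p.natDegree q.natDegree = d →
    ¬ IsoP k (p.map (algebraMap K (AlgebraicClosure K)))
      (q.map (algebraMap K (AlgebraicClosure K))) d →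
    ¬ LatP d (p.map (algebraMap K (AlgebraicClosure K)))
      (q.map (algebraMap K (AlgebraicClosure K))) →
    {z : Option (AlgebraicClosure K) | (Set.range fun m : ℕ =>
        (Pool.Agent.W277.UH.ratP1 (p.map (algebraMap K (AlgebraicClosure K)))
          (q.map (algebraMap K (AlgebraicClosure K))) d)^[m] z).Finite ∧
      ∃ t : IntermediateField.adjoin K {x | z = some x}, Transcendental k t ∧
        FiniteDimensional (IntermediateField.adjoin k {t})
          (IntermediateField.adjoin K {x | z = some x}) ∧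
        Module.finrank (IntermediateField.adjoin k {t})
          (IntermediateField.adjoin K {x | z = some x}) ≤ D}.encard ≤ ((N D d : ℕ) : ℕ∞) := by
  obtain ⟨p₀, N, hN⟩ := fin_p.{u, v} hCL
  refine ⟨p₀, fun D d => (N D d + 1) * ((N D d + 1) * (2 * d ^ (N D d) + 1)), ?_⟩
  intro k K _ _ _ ℓ _ _ D d hd hdp p q hco hmax hiso hlat
  refine Pool.Agent.Y706.CH7.gonc D d (N D d) hd p q hco hmax ?_
  intro E hE t ht hfd hD
  have hkEF : IsScalarTower k E (AlgebraicClosure K) :=
    IsScalarTower.of_algebraMap_eq fun x => rfl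
  have hmm : ∀ g : K[X], (g.map (algebraMap K E)).map (algebraMap E (AlgebraicClosure K)) =
      g.map (algebraMap K (AlgebraicClosure K)) := by
    intro g
    rw [Polynomial.map_map, ← IsScalarTower.algebraMap_eq]
  have e : ∀ (p q : E[X]) (d : ℕ),
      Pool.Agent.W277.UH.ratP1 p q d = Pool.Agent.TH951.W.UH.ratP1 p q d := by
    intro p q d
    funext z
    cases z <;> rfl
  have h1 := hN k E (AlgebraicClosure K) ℓ t ht hfd D d hD hd hdp (p.map (algebraMap K E))
    (q.map (algebraMap K E)) (hco.map (Polynomial.mapRingHom (algebraMap K E)))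
    (Pool.Agent.Y706.CH7.deg_map p q d hmax) (by
      rw [hmm, hmm]
      exact hiso) (by
      rw [hmm, hmm]
      exact hlat)
  rw [e]
  exact h1

end Pool.Agent.E8helper88.FP
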